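import Pool.Agent.K1H14.SD.Stm2

set_option autoImplicit false

/-! Project SD: `S_NIL`. -/

namespace Pool.Agent.K1H25.SD

open Pool.Agent.K1H14.SD Pool.Agent.K1H14.KS

universe u

theorem sum_insert_swap {n : ℕ} (F : Finset (Fin n) → ℂ) (c : ℕ → ℂ) :
    ∑ S : Finset (Fin n), c S.card * ∑ i, (if i ∈ S then 0 else F (insert i S)) =
      ∑ T : Finset (Fin n), (T.card : ℂ) * (c (T.card - 1) * F T) := by
  have h1 : ∀ S : Finset (Fin n), c S.card * ∑ i, (if i ∈ S then 0 else F (insert i S)) =
      ∑ i, (if i ∈ S then 0 else c S.card * F (insert i S)) := by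
    intro S
    rw [Finset.mul_sum]
    refine Finset.sum_congr rfl fun i _ => ?_
    split_ifs
    · rw [mul_zero]
    · rfl
  have h2 : ∀ T : Finset (Fin n), (T.card : ℂ) * (c (T.card - 1) * F T) =
      ∑ i, (if i ∈ T then c (T.card - 1) * F T else 0) := by
    intro T
    rw [← Finset.sum_filter, Finset.sum_const, nsmul_eq_mul]
    congr 2
    rw [Finset.filter_mem_eq_inter, Finset.univ_inter]
  simp_rw [h1, h2]
  rw [Finset.sum_comm]
  nth_rewrite 2 [Finset.sum_comm]
  refine Finset.sum_congr rfl fun i _ => ?_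
  have h3 : ∑ S : Finset (Fin n), (if i ∈ S then 0 else c S.card * F (insert i S)) =
      ∑ S ∈ Finset.univ.filter (fun S : Finset (Fin n) => i ∉ S), c S.card * F (insert i S) := by
    rw [Finset.sum_filter]
    refine Finset.sum_congr rfl fun S _ => ?_
    by_cases h : i ∈ S <;> simp [h]
  rw [h3, ← Finset.sum_filter]
  refine Finset.sum_bij' (fun S _ => insert i S) (fun T _ => T.erase i) ?_ ?_ ?_ ?_ ?_
  · intro S hS
    simp
  · intro T hT
    simp
  · intro S hS
    rw [Finset.mem_filter] at hS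
    exact Finset.erase_insert hS.2
  · intro T hT
    rw [Finset.mem_filter] at hT
    exact Finset.insert_erase hT.2
  · intro S hS
    rw [Finset.mem_filter] at hS
    rw [Finset.card_insert_of_notMem hS.2, Nat.add_sub_cancel]

theorem t_NIL : S_NIL.{u} := by
  intro V _ _ n D f hD hK v
  set F : Finset (Fin n) → ℂ := fun S => f (S.piecewise (fun i => D (v i)) v) with hF
  have h1 : ∀ S : Finset (Fin n), ∑ i, (if i ∈ S then 0 else F (insert i S)) = 0 := by
    intro S
    refine (Finset.sum_congr rfl fun i _ => ?_).trans (hK (S.piecewise (fun i => D (v i)) v))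
    split_ifs with hi
    · rw [Finset.piecewise_eq_of_mem _ _ _ hi, hD]
      exact (MultilinearMap.map_update_zero f _ i).symm
    · rw [hF]
      simp only
      rw [Finset.piecewise_insert, Finset.piecewise_eq_of_notMem _ _ _ hi]
  have h2 := sum_insert_swap F (fun m => ((m : ℂ) + 1)⁻¹)
  rw [Finset.sum_eq_zero (fun S _ => by rw [h1 S, mul_zero])] at h2
  have h3 : f (fun i => (LinearMap.id + D : V →ₗ[ℂ] V) (v i)) = ∑ S : Finset (Fin n), F S := by
    have : (fun i => (LinearMap.id + D : V →ₗ[ℂ] V) (v i)) = (fun i => D (v i)) + v := by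
      funext i
      rw [Pi.add_apply, LinearMap.add_apply, LinearMap.id_apply, add_comm]
    rw [this, MultilinearMap.map_add_univ]
  have h4 : ∑ S : Finset (Fin n), F S = F ∅ + ∑ T : Finset (Fin n),
      (T.card : ℂ) * (((((T.card - 1 : ℕ)) : ℂ) + 1)⁻¹ * F T) := by
    have h5 : F ∅ = ∑ T : Finset (Fin n), (if T = ∅ then F T else 0) := by
      rw [Finset.sum_ite_eq' Finset.univ ∅ F]
      simp
    rw [h5, ← Finset.sum_add_distrib]
    refine Finset.sum_congr rfl fun T _ => ?_
    split_ifs with hT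
    · rw [hT]
      simp
    · have h6 : 0 < T.card := Finset.card_pos.2 (Finset.nonempty_iff_ne_empty.2 hT)
      obtain ⟨m, hm⟩ : ∃ m, T.card = m + 1 := ⟨T.card - 1, by omega⟩
      rw [hm, Nat.add_sub_cancel, zero_add, ← mul_assoc, Nat.cast_add, Nat.cast_one,
        mul_inv_cancel₀ (Nat.cast_add_one_ne_zero m), one_mul]
  rw [h3, h4, ← h2, add_zero, hF]
  simp only
  rw [Finset.piecewise_empty]

end Pool.Agent.K1H25.SD
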