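import Pool.Agent.K1H14.SD.Stm

set_option autoImplicit false

/-! Project SD: `S_SWAP` and `S_VEC`. -/

namespace Pool.Agent.K1H25.SD

open Pool.Agent.K1H14.SD

open scoped symmDiff

universe u

theorem t_SWAP : S_SWAP.{u} := by
  intro A _ _ d M st N hE hN K i j hK hMK hi hj
  have hij : i ≠ j := fun h => hj (h ▸ hi)
  have hc : ({i, j} : Finset (Fin d)).card = 2 := Finset.card_pair hij
  have hLe : Even ({i, j} : Finset (Fin d)).card := by rw [hc]; exact even_two
  have h1 := hN {i, j} hc (M K) hMK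
  have hint : ({i, j} : Finset (Fin d)) ∩ K = {i} := by
    ext x
    simp only [Finset.mem_inter, Finset.mem_insert, Finset.mem_singleton]
    constructor
    · rintro ⟨rfl | rfl, hx⟩
      · rfl
      · exact absurd hx hj
    · rintro rfl
      exact ⟨Or.inl rfl, hi⟩
  have h2 := hE.comm {i, j} K hLe hK
  rw [hint, Finset.card_singleton, pow_one] at h2
  obtain ⟨ε, hε, h3⟩ := hE.mul {i, j} K hLe hK
  have h4 : M K * M {i, j} = - (M {i, j} * M K) := by
    rw [h2, neg_smul, one_smul, neg_neg]
  rw [h4, sub_neg_eq_add, h3, ← add_smul] at h1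
  have h5 : (ε + ε) ≠ 0 := by rcases hε with rfl | rfl <;> norm_num
  have h6 := N.smul_mem (ε + ε)⁻¹ h1
  rw [smul_smul, inv_mul_cancel₀ h5, one_smul, symmDiff_comm] at h6
  exact h6

end Pool.Agent.K1H25.SD
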