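import Pool.Agent.K1H14.SD.Stm

set_option autoImplicit false

/-! Project SD: `S_VEC`. -/

namespace Pool.Agent.K1H25.SD

open Pool.Agent.K1H14.SD

open scoped symmDiff

universe u

variable {A : Type u} [Ring A] [Algebra ℂ A] {d : ℕ} {M : Finset (Fin d) → A} {st : A →ₗ[ℂ] A}

theorem M_ne (hE : EvenCl M st) {K : Finset (Fin d)} (hK : Even K.card) : M K ≠ 0 := by
  intro h
  have := hE.st_inv K hK
  rw [h, mul_zero] at this
  exact hE.ne this.symm

/-- a nontrivial monomial is not a scalar -/
theorem M_nsc (hE : EvenCl M st) {K : Finset (Fin d)} (hK : Even K.card) (hne : K.Nonempty) :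
    M K ∉ Submodule.span ℂ {(1 : A)} := by
  intro h
  obtain ⟨a, ha⟩ := Submodule.mem_span_singleton.1 h
  obtain ⟨i, hi⟩ := hne
  obtain ⟨j, hj⟩ : ∃ j, j ∉ K := by
    by_contra hcon
    push Not at hcon
    have : K = Finset.univ := Finset.eq_univ_iff_forall.2 hcon
    rw [this, Finset.card_univ, Fintype.card_fin] at hK
    exact (Nat.not_even_iff_odd.2 hE.odd) hK
  have hij : i ≠ j := fun h => hj (h ▸ hi)
  have hc : ({i, j} : Finset (Fin d)).card = 2 := Finset.card_pair hij
  have hLe : Even ({i, j} : Finset (Fin d)).card := by rw [hc]; exact even_two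
  have hint : ({i, j} : Finset (Fin d)) ∩ K = {i} := by
    ext x
    simp only [Finset.mem_inter, Finset.mem_insert, Finset.mem_singleton]
    constructor
    · rintro ⟨rfl | rfl, hx⟩
      · rfl
      · exact absurd hx hj
    · rintro rfl
      exact ⟨Or.inl rfl, hi⟩
  have h2 := hE.comm {i, j} K hLe hK
  rw [hint, Finset.card_singleton, pow_one, ← ha, mul_smul_comm, smul_mul_assoc, mul_one,
    one_mul, neg_smul, one_smul] at h2
  have h3 : a • M {i, j} + a • M {i, j} = 0 := by
    nth_rewrite 1 [h2]
    exact neg_add_cancel _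
  rw [← add_smul, smul_eq_zero] at h3
  rcases h3 with h3 | h3
  · have ha0 : a = 0 := by
      have : (2 : ℂ) * a = 0 := by rw [two_mul]; exact h3
      rcases mul_eq_zero.1 this with h | h
      · norm_num at h
      · exact h
    rw [ha0, zero_smul] at ha
    exact M_ne hE hK ha.symm
  · exact M_ne hE hLe h3

theorem card_sd {d : ℕ} (K L : Finset (Fin d)) :
    (K ∆ L).card + 2 * (K ∩ L).card = K.card + L.card := by
  have h1 : (K ∆ L).card = (K \ L).card + (L \ K).card := by
    rw [Finset.symmDiff_def]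
    exact Finset.card_union_of_disjoint disjoint_sdiff_sdiff
  have h2 := Finset.card_sdiff_add_card_inter K L
  have h3 := Finset.card_sdiff_add_card_inter L K
  rw [Finset.inter_comm] at h3
  omega

/-- the levels are stable under brackets with level 2 -/
theorem lev_brk (hE : EvenCl M st) {k : ℕ} (hk : Even k) (x p : A) (hx : x ∈ Lev M 2)
    (hp : p ∈ Lev M k) : x * p - p * x ∈ Lev M k := by
  unfold Lev at hx hp
  induction hx using Submodule.span_induction with
  | zero => rw [zero_mul, mul_zero, sub_zero]; exact Submodule.zero_mem _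
  | add a b _ _ ha hb =>
    have : (a + b) * p - p * (a + b) = (a * p - p * a) + (b * p - p * b) := by
      rw [add_mul, mul_add]; abel
    rw [this]
    exact Submodule.add_mem _ ha hb
  | smul c a _ ha =>
    have : (c • a) * p - p * (c • a) = c • (a * p - p * a) := by
      rw [smul_mul_assoc, mul_smul_comm, smul_sub]
    rw [this]
    exact Submodule.smul_mem _ _ ha
  | mem a ha =>
    obtain ⟨K, hK, rfl⟩ := ha
    have hKe : Even K.card := by rw [hK]; exact even_two
    induction hp using Submodule.span_induction with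
    | zero => rw [zero_mul, mul_zero, sub_zero]; exact Submodule.zero_mem _
    | add a b _ _ ha hb =>
      have : M K * (a + b) - (a + b) * M K = (M K * a - a * M K) + (M K * b - b * M K) := by
        rw [add_mul, mul_add]; abel
      rw [this]
      exact Submodule.add_mem _ ha hb
    | smul c a _ ha =>
      have : M K * (c • a) - (c • a) * M K = c • (M K * a - a * M K) := by
        rw [smul_mul_assoc, mul_smul_comm, smul_sub]
      rw [this]
      exact Submodule.smul_mem _ _ ha
    | mem b hb =>
      obtain ⟨L, hL, rfl⟩ := hb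
      have hLe : Even L.card := by rw [hL]; exact hk
      have hcm := hE.comm K L hKe hLe
      rcases Nat.even_or_odd (K ∩ L).card with hpar | hpar
      · rw [hpar.neg_one_pow, one_smul] at hcm
        rw [hcm, sub_self]
        exact Submodule.zero_mem _
      · rw [hpar.neg_one_pow, neg_smul, one_smul] at hcm
        obtain ⟨ε, -, h3⟩ := hE.mul K L hKe hLe
        have h4 : M L * M K = - (M K * M L) := by rw [hcm, neg_neg]
        rw [h4, sub_neg_eq_add, h3, ← add_smul]
        refine Submodule.smul_mem _ _ (Submodule.subset_span ⟨K ∆ L, ?_, rfl⟩)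
        have h5 : (K ∩ L).card ≤ K.card := Finset.card_le_card Finset.inter_subset_left
        have h6 : (K ∩ L).card = 1 := by
          obtain ⟨t, ht⟩ := hpar
          omega
        have h7 := card_sd K L
        omega

/-- the anticommutators of elements of level `d - 1` are scalars -/
theorem lev_anti (hE : EvenCl M st) (x p : A) (hx : x ∈ Lev M (d - 1))
    (hp : p ∈ Lev M (d - 1)) : x * p + p * x ∈ Submodule.span ℂ {(1 : A)} := by
  have hd := hE.odd
  have hde : Even (d - 1) := by
    obtain ⟨t, ht⟩ := hd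
    exact ⟨t, by omega⟩
  unfold Lev at hx hp
  induction hx using Submodule.span_induction with
  | zero => rw [zero_mul, mul_zero, add_zero]; exact Submodule.zero_mem _
  | add a b _ _ ha hb =>
    have : (a + b) * p + p * (a + b) = (a * p + p * a) + (b * p + p * b) := by
      rw [add_mul, mul_add]; abel
    rw [this]
    exact Submodule.add_mem _ ha hb
  | smul c a _ ha =>
    have : (c • a) * p + p * (c • a) = c • (a * p + p * a) := by
      rw [smul_mul_assoc, mul_smul_comm, smul_add]
    rw [this]
    exact Submodule.smul_mem _ _ ha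
  | mem a ha =>
    obtain ⟨K, hK, rfl⟩ := ha
    have hKe : Even K.card := by rw [hK]; exact hde
    induction hp using Submodule.span_induction with
    | zero => rw [zero_mul, mul_zero, add_zero]; exact Submodule.zero_mem _
    | add a b _ _ ha hb =>
      have : M K * (a + b) + (a + b) * M K = (M K * a + a * M K) + (M K * b + b * M K) := by
        rw [add_mul, mul_add]; abel
      rw [this]
      exact Submodule.add_mem _ ha hb
    | smul c a _ ha =>
      have : M K * (c • a) + (c • a) * M K = c • (M K * a + a * M K) := by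
        rw [smul_mul_assoc, mul_smul_comm, smul_add]
      rw [this]
      exact Submodule.smul_mem _ _ ha
    | mem b hb =>
      obtain ⟨L, hL, rfl⟩ := hb
      have hLe : Even L.card := by rw [hL]; exact hde
      by_cases hKL : K = L
      · subst hKL
        obtain ⟨ε, -, h3⟩ := hE.mul K K hKe hKe
        rw [h3, symmDiff_self, Finset.bot_eq_empty, hE.one, ← add_smul]
        exact Submodule.smul_mem _ _ (Submodule.mem_span_singleton_self _)
      · have hcm := hE.comm K L hKe hLe
        have hpar : Odd (K ∩ L).card := by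
          have h1 := Finset.card_union_add_card_inter K L
          have h2 : (K ∪ L).card ≤ d := by
            have := Finset.card_le_univ (K ∪ L)
            rwa [Fintype.card_fin] at this
          have h3 : (K ∩ L).card < K.card := by
            refine Finset.card_lt_card ⟨Finset.inter_subset_left, fun h4 => hKL ?_⟩
            have h5 : K ⊆ L := fun y hy => (Finset.mem_inter.1 (h4 hy)).2
            exact Finset.eq_of_subset_of_card_le h5 (by omega)
          obtain ⟨t, ht⟩ := hd
          exact ⟨t - 1, by omega⟩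
        rw [hpar.neg_one_pow, neg_smul, one_smul] at hcm
        rw [hcm, neg_add_cancel]
        exact Submodule.zero_mem _

theorem t_VEC (h : S_SPAN.{u}) (h' : S_SWAP.{u}) : S_VEC.{u} := by
  intro A _ _ d M st ρ σ hE hd5 hadd hmul hone hsmul hbij hρ2
  have hd := hE.odd
  have hde : Even (d - 1) := by
    obtain ⟨t, ht⟩ := hd
    exact ⟨t, by omega⟩
  have hzero : ρ 0 = 0 := by
    have := hadd 0 0
    rw [add_zero] at this
    exact left_eq_add.1 this
  have hsub : ∀ x y, ρ (x - y) = ρ x - ρ y := by
    intro x y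
    have := hadd (x - y) y
    rw [sub_add_cancel] at this
    rw [this, add_sub_cancel_right]
  let N : Submodule ℂ A :=
    { carrier := {y | ∃ p ∈ Lev M (d - 1), ρ p = y}
      zero_mem' := ⟨0, Submodule.zero_mem _, hzero⟩
      add_mem' := by
        rintro _ _ ⟨p, hp, rfl⟩ ⟨p', hp', rfl⟩
        exact ⟨p + p', Submodule.add_mem _ hp hp', hadd _ _⟩
      smul_mem' := by
        rintro c _ ⟨p, hp, rfl⟩
        refine ⟨σ.symm c • p, Submodule.smul_mem _ _ hp, ?_⟩
        rw [hsmul, RingEquiv.apply_symm_apply] }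
  have hNmem : ∀ y, y ∈ N ↔ ∃ p ∈ Lev M (d - 1), ρ p = y := fun y => Iff.rfl
  -- (1)
  have hNst : ∀ K : Finset (Fin d), K.card = 2 → ∀ x ∈ N, M K * x - x * M K ∈ N := by
    intro K hK x hx
    obtain ⟨p, hp, rfl⟩ := (hNmem x).1 hx
    obtain ⟨z, hz⟩ := hbij.2 (M K)
    have hz2 : z ∈ Lev M 2 := by
      rw [hρ2 z, hz]
      exact Submodule.subset_span ⟨K, hK, rfl⟩
    refine (hNmem _).2 ⟨z * p - p * z, lev_brk hE hde z p hz2 hp, ?_⟩
    rw [hsub, hmul, hmul, hz]
  -- (2)
  have hNan : ∀ x ∈ N, ∀ y ∈ N, x * y + y * x ∈ Submodule.span ℂ {(1 : A)} := by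
    intro x hx y hy
    obtain ⟨p, hp, rfl⟩ := (hNmem x).1 hx
    obtain ⟨p', hp', rfl⟩ := (hNmem y).1 hy
    obtain ⟨c, hc⟩ := Submodule.mem_span_singleton.1 (lev_anti hE p p' hp hp')
    rw [← hmul, ← hmul, ← hadd, ← hc, hsmul, hone]
    exact Submodule.smul_mem _ _ (Submodule.mem_span_singleton_self _)
  -- (3)
  have key : ∀ K : Finset (Fin d), Even K.card → M K ∈ N → K.card = d - 1 := by
    intro K hK hMK
    by_contra hcon
    have hKd : K.card ≤ d := by
      have := Finset.card_le_univ K
      rwa [Fintype.card_fin] at this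
    rcases K.eq_empty_or_nonempty with rfl | hne
    · obtain ⟨p, hp, hp1⟩ := (hNmem _).1 hMK
      rw [hE.one, ← hone] at hp1
      have hp2 : p = 1 := hbij.1 hp1
      subst hp2
      obtain ⟨L, hL⟩ : ∃ L : Finset (Fin d), L.card = d - 1 := by
        obtain ⟨L, -, hL⟩ := Finset.exists_subset_card_eq
          (s := (Finset.univ : Finset (Fin d))) (n := d - 1)
          (by rw [Finset.card_univ, Fintype.card_fin]; omega)
        exact ⟨L, hL⟩
      have h1 := lev_anti hE 1 (M L) hp (Submodule.subset_span ⟨L, hL, rfl⟩)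
      rw [one_mul, mul_one, ← two_smul ℂ (M L)] at h1
      have h2 := Submodule.smul_mem _ (2 : ℂ)⁻¹ h1
      rw [smul_smul, inv_mul_cancel₀ two_ne_zero, one_smul] at h2
      exact M_nsc hE (by rw [hL]; exact hde) (Finset.card_pos.1 (by omega)) h2
    · have hK2 : 2 ≤ K.card := by
        have h1 := Finset.card_pos.2 hne
        obtain ⟨t, ht⟩ := hK
        omega
      have hKc : 2 ≤ Kᶜ.card := by
        rw [Finset.card_compl, Fintype.card_fin]
        obtain ⟨t, ht⟩ := hK
        obtain ⟨t', ht'⟩ := hd
        omega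
      obtain ⟨i₁, hi₁, i₂, hi₂, hi⟩ := Finset.one_lt_card.1 (show 1 < K.card by omega)
      obtain ⟨j₁, hj₁, j₂, hj₂, hj⟩ := Finset.one_lt_card.1 (show 1 < Kᶜ.card by omega)
      rw [Finset.mem_compl] at hj₁ hj₂
      have e1 : i₁ ≠ j₁ := fun h => hj₁ (h ▸ hi₁)
      have e2 : i₁ ≠ j₂ := fun h => hj₂ (h ▸ hi₁)
      have e3 : i₂ ≠ j₁ := fun h => hj₁ (h ▸ hi₂)
      have e4 : i₂ ≠ j₂ := fun h => hj₂ (h ▸ hi₂)
      have hM1 : M (K ∆ {i₁, j₁}) ∈ N := h' M st N hE hNst K i₁ j₁ hK hMK hi₁ hj₁
      have hc1 : (K ∆ {i₁, j₁}).card = K.card := by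
        have h1 := card_sd K {i₁, j₁}
        have h2 : K ∩ {i₁, j₁} = {i₁} := by
          ext x
          simp only [Finset.mem_inter, Finset.mem_insert, Finset.mem_singleton]
          constructor
          · rintro ⟨hx, rfl | rfl⟩
            · rfl
            · exact absurd hx hj₁
          · rintro rfl
            exact ⟨hi₁, Or.inl rfl⟩
        rw [h2, Finset.card_singleton, Finset.card_pair e1] at h1
        omega
      have hi₂' : i₂ ∈ K ∆ {i₁, j₁} := by
        rw [Finset.mem_symmDiff]
        exact Or.inl ⟨hi₂, by simp [hi.symm, e3]⟩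
      have hj₂' : j₂ ∉ K ∆ {i₁, j₁} := by
        rw [Finset.mem_symmDiff]
        simp [hj₂, e2.symm, hj.symm]
      have hM2 : M ((K ∆ {i₁, j₁}) ∆ {i₂, j₂}) ∈ N :=
        h' M st N hE hNst _ i₂ j₂ (by rw [hc1]; exact hK) hM1 hi₂' hj₂'
      have hKD : K ∆ ((K ∆ {i₁, j₁}) ∆ {i₂, j₂}) = {i₁, j₁} ∆ {i₂, j₂} := by
        rw [symmDiff_assoc, symmDiff_symmDiff_cancel_left]
      have hc2 : ((K ∆ {i₁, j₁}) ∆ {i₂, j₂}).card = K.card := by
        have h1 := card_sd (K ∆ {i₁, j₁}) {i₂, j₂}
        have h2 : (K ∆ {i₁, j₁}) ∩ {i₂, j₂} = {i₂} := by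
          ext x
          simp only [Finset.mem_inter, Finset.mem_insert, Finset.mem_singleton]
          constructor
          · rintro ⟨hx, rfl | rfl⟩
            · rfl
            · exact absurd hx hj₂'
          · rintro rfl
            exact ⟨hi₂', Or.inl rfl⟩
        rw [h2, Finset.card_singleton, Finset.card_pair e4] at h1
        omega
      have hD : (({i₁, j₁} : Finset (Fin d)) ∆ {i₂, j₂}).card = 4 := by
        have h1 := card_sd ({i₁, j₁} : Finset (Fin d)) {i₂, j₂}
        have h2 : ({i₁, j₁} : Finset (Fin d)) ∩ {i₂, j₂} = ∅ := by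
          ext x
          simp only [Finset.mem_inter, Finset.mem_insert, Finset.mem_singleton,
            Finset.notMem_empty, iff_false, not_and, not_or]
          rintro (rfl | rfl)
          · exact ⟨hi, e2⟩
          · exact ⟨e3.symm, hj⟩
        rw [h2, Finset.card_empty, Finset.card_pair e1, Finset.card_pair e4] at h1
        omega
      have hpar : Even (K ∩ ((K ∆ {i₁, j₁}) ∆ {i₂, j₂})).card := by
        have h1 := card_sd K ((K ∆ {i₁, j₁}) ∆ {i₂, j₂})
        rw [hKD, hD, hc2] at h1
        obtain ⟨t, ht⟩ := hK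
        exact ⟨t - 1, by omega⟩
      have hK2e : Even ((K ∆ {i₁, j₁}) ∆ {i₂, j₂}).card := by rw [hc2]; exact hK
      have h1 := hNan _ hMK _ hM2
      have hcm := hE.comm K _ hK hK2e
      rw [hpar.neg_one_pow, one_smul] at hcm
      obtain ⟨ε, hε, h3⟩ := hE.mul K _ hK hK2e
      rw [← hcm, h3, ← add_smul, hKD] at h1
      have h5 : (ε + ε) ≠ 0 := by rcases hε with rfl | rfl <;> norm_num
      have h6 := Submodule.smul_mem _ (ε + ε)⁻¹ h1
      rw [smul_smul, inv_mul_cancel₀ h5, one_smul] at h6
      exact M_nsc hE (by rw [hD]; exact ⟨2, rfl⟩) (Finset.card_pos.1 (by omega)) h6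
  intro x hx
  have h1 : ρ x ∈ N := (hNmem _).2 ⟨x, hx, rfl⟩
  have h2 := h M st N hE hNst (ρ x) h1
  refine Submodule.span_mono ?_ h2
  rintro _ ⟨K, hK, hMK, rfl⟩
  exact ⟨K, key K hK hMK, rfl⟩

end Pool.Agent.K1H25.SD
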